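import Pool.Agent.H74.CT.Fr

set_option autoImplicit false

/-!
# [H74 CT Bas] elementary properties of `ex` (helper96)
-/

namespace Pool.Agent.H74.CT

theorem bas : BasStmt := by
  intro α _ p
  refine ⟨?_, ?_, ?_, ?_, ?_⟩
  · intro c
    unfold ex
    rw [← Finset.sum_mul]
    have h := Finset.sum_pow_mul_eq_add_pow p (1 - p) (Finset.univ : Finset α)
    rw [Finset.powerset_univ, Finset.card_univ] at h
    rw [h, add_sub_cancel, one_pow, one_mul]
  · intro f g
    unfold ex
    rw [← Finset.sum_add_distrib]
    exact Finset.sum_congr rfl fun E _ => by ring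
  · intro c f
    unfold ex
    rw [Finset.mul_sum]
    exact Finset.sum_congr rfl fun E _ => by ring
  · intro ι s f
    unfold ex
    rw [Finset.sum_comm]
    exact Finset.sum_congr rfl fun E _ => by rw [Finset.mul_sum]
  · intro f g h0 h1 hfg
    unfold ex
    refine Finset.sum_le_sum fun E _ => mul_le_mul_of_nonneg_left (hfg E) ?_
    exact mul_nonneg (pow_nonneg h0 _) (pow_nonneg (by linarith) _)

end Pool.Agent.H74.CT
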