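import Pool.Agent.H74.CT.Fr

set_option autoImplicit false

/-!
# [H74 CT Col] the first-fit set gets one new colour
-/

namespace Pool.Agent.H74.CT

open Classical in
theorem col : ColStmt := by
  intro n k E I hI hC
  obtain ⟨c⟩ := hC
  refine ⟨SimpleGraph.Coloring.mk
    (fun v => if h : v ∉ I then (c ⟨v, h⟩).castSucc else Fin.last k) ?_⟩
  have key : ∀ v w : Fin n, ∀ h : v < w, (⟨(v, w), h⟩ : Pr n) ∈ E →
      (if h : v ∉ I then (c ⟨v, h⟩).castSucc else Fin.last k) ≠
        (if h : w ∉ I then (c ⟨w, h⟩).castSucc else Fin.last k) := by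
    intro v w h hE
    by_cases hv : v ∈ I
    · by_cases hw : w ∈ I
      · exact absurd hE ((hI w).1 hw v h hv)
      · rw [dif_neg (not_not.2 hv), dif_pos hw]
        exact (Fin.castSucc_lt_last _).ne'
    · by_cases hw : w ∈ I
      · rw [dif_pos hv, dif_neg (not_not.2 hw)]
        exact (Fin.castSucc_lt_last _).ne
      · rw [dif_pos hv, dif_pos hw]
        intro heq
        have h1 := Fin.castSucc_injective _ heq
        refine c.valid (v := ⟨v, hv⟩) (w := ⟨w, hw⟩) ?_ h1
        exact Or.inl ⟨h, hE⟩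
  intro v w hadj
  rcases hadj with ⟨h, hE⟩ | ⟨h, hE⟩
  · exact key v w h hE
  · exact (key w v h hE).symm

end Pool.Agent.H74.CT
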