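import Pool.Agent.H74.CT.Lim

set_option autoImplicit false

/-!
# [H74 CT Cor] consequences of the comparison of `k` and `k + 1` colours (helper74)
-/

namespace Pool.Agent.H74.CT

open Filter Topology

/-- a.s. `k`-colourable -/
def AS (k : ℕ) (c : ℝ) : Prop := Tendsto (fun n : ℕ => frac k n ⌊c * n⌋₊) atTop (𝓝 1)

/-- a.s. not `k`-colourable -/
def AN (k : ℕ) (c : ℝ) : Prop := Tendsto (fun n : ℕ => frac k n ⌊c * n⌋₊) atTop (𝓝 0)

namespace Cor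

theorem rest_tendsto (α : ℝ) (h0 : 0 < α) (h1 : α < 1) :
    Tendsto (fun n : ℕ => n - ⌊α * n⌋₊) atTop atTop := by
  refine tendsto_atTop.2 fun m => ?_
  filter_upwards [Lim.ev_ge (m / (1 - α))] with n hn
  have h2 : 0 < 1 - α := by linarith
  rw [div_le_iff₀ h2] at hn
  have hs1 : (⌊α * n⌋₊ : ℝ) ≤ α * n := Nat.floor_le (by positivity)
  have h3 : ((m + ⌊α * n⌋₊ : ℕ) : ℝ) ≤ n := by push_cast; linarith
  have h4 : m + ⌊α * n⌋₊ ≤ n := by exact_mod_cast h3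
  omega

theorem as_step (hlim : LimStmt) (k : ℕ) (b c : ℝ) (hb : 0 < b) (hc : 0 < c)
    (h : c - Real.log (1 + 2 * c) / 2 < b) (H : AS k b) : AS (k + 1) c := by
  obtain ⟨α, h0, h1, hε⟩ := hlim k b c hb hc h
  have H2 : Tendsto (fun n : ℕ => frac k (n - ⌊α * n⌋₊) ⌊b * ((n - ⌊α * n⌋₊ : ℕ) : ℝ)⌋₊) atTop (𝓝 1) :=
    H.comp (rest_tendsto α h0 h1)
  rw [AS, Metric.tendsto_atTop]
  intro ε hpos
  obtain ⟨n₀, hn₀⟩ := hε (ε / 2) (by linarith)
  obtain ⟨n₁, hn₁⟩ := (Metric.tendsto_atTop.1 H2) (ε / 2) (by linarith)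
  refine ⟨max n₀ n₁, fun n hn => ?_⟩
  have a1 := hn₀ n ((le_max_left _ _).trans hn)
  have a2 := hn₁ n ((le_max_right _ _).trans hn)
  rw [Real.dist_eq, abs_lt] at a2
  rw [Real.dist_eq, abs_lt]
  have a3 := Lim.frac_le_one (k + 1) n ⌊c * n⌋₊
  constructor <;> linarith [a2.1, a2.2]

/-- every large `m` is of the form `n - ⌊α n⌋` -/
theorem rest_surj (α : ℝ) (h0 : 0 < α) (h1 : α < 1) (n₁ m : ℕ) (hm : n₁ - ⌊α * n₁⌋₊ ≤ m) :
    ∃ n : ℕ, n₁ ≤ n ∧ n - ⌊α * n⌋₊ = m := by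
  classical
  have hex : ∃ n : ℕ, n₁ ≤ n ∧ m ≤ n - ⌊α * n⌋₊ := by
    obtain ⟨n, hn⟩ := (((rest_tendsto α h0 h1).eventually_ge_atTop m).and (eventually_ge_atTop n₁)).exists
    exact ⟨n, hn.2, hn.1⟩
  obtain ⟨h2, h3⟩ := Nat.find_spec hex
  refine ⟨Nat.find hex, h2, le_antisymm ?_ h3⟩
  rcases h2.eq_or_lt with h4 | h4
  · rw [← h4]; exact hm
  · obtain ⟨j, hj⟩ : ∃ j, Nat.find hex = j + 1 := ⟨Nat.find hex - 1, by omega⟩
    have h5 := Nat.find_min hex (m := j) (by omega)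
    have h6 : ¬ m ≤ j - ⌊α * j⌋₊ := fun h => h5 ⟨by omega, h⟩
    rw [hj]
    have h7 : ⌊α * j⌋₊ ≤ ⌊α * ((j + 1 : ℕ) : ℝ)⌋₊ := by
      refine Nat.floor_mono ?_
      push_cast
      nlinarith
    omega

theorem an_step (hlim : LimStmt) (k : ℕ) (b c : ℝ) (hb : 0 < b) (hc : 0 < c)
    (h : c - Real.log (1 + 2 * c) / 2 < b) (H : AN (k + 1) c) : AN k b := by
  obtain ⟨α, h0, h1, hε⟩ := hlim k b c hb hc h
  rw [AN, Metric.tendsto_atTop]
  intro ε hpos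
  obtain ⟨n₀, hn₀⟩ := hε (ε / 2) (by linarith)
  obtain ⟨n₁, hn₁⟩ := (Metric.tendsto_atTop.1 H) (ε / 2) (by linarith)
  refine ⟨max n₀ n₁, fun m hm => ?_⟩
  obtain ⟨n, hn, hnm⟩ := rest_surj α h0 h1 (max n₀ n₁) m (by omega)
  have a1 := hn₀ n ((le_max_left _ _).trans hn)
  have a2 := hn₁ n ((le_max_right _ _).trans hn)
  rw [hnm] at a1
  rw [Real.dist_eq, abs_lt] at a2
  rw [Real.dist_eq, abs_lt]
  have a3 := Lim.frac_nonneg k m ⌊b * m⌋₊
  constructor <;> linarith [a2.1, a2.2]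

theorem not_both (k : ℕ) (c : ℝ) (h1 : AS k c) (h2 : AN k c) : False := by
  have := tendsto_nhds_unique h1 h2
  norm_num at this

/-- the inequality for thresholds -/
theorem thr (hlim : LimStmt) (k : ℕ) (x y : ℝ) (hx : 0 ≤ x) (hy : 0 ≤ y)
    (hx1 : ∀ c : ℝ, 0 < c → c < x → AS k c) (hy2 : ∀ c : ℝ, y < c → AN (k + 1) c) :
    x + Real.log (1 + 2 * y) / 2 ≤ y := by
  by_contra hcon
  push Not at hcon
  have hlogy : Real.log (1 + 2 * y) ≤ 2 * y := by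
    have := Real.log_le_sub_one_of_pos (x := 1 + 2 * y) (by linarith)
    linarith
  have hxpos : 0 < x := by
    rcases hx.eq_or_lt with h | h
    · rw [← h] at hcon; linarith
    · exact h
  obtain ⟨b, hb⟩ : ∃ b, b = max (x / 2) ((x + (y - Real.log (1 + 2 * y) / 2)) / 2) := ⟨_, rfl⟩
  have hb1 : 0 < b := by rw [hb]; exact lt_of_lt_of_le (by linarith) (le_max_left _ _)
  have hb2 : b < x := by rw [hb]; exact max_lt (by linarith) (by linarith)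
  have hb3 : y - Real.log (1 + 2 * y) / 2 < b := by
    rw [hb]; exact lt_of_lt_of_le (by linarith) (le_max_right _ _)
  obtain ⟨c, hc⟩ : ∃ c, c = y + (b - (y - Real.log (1 + 2 * y) / 2)) / 2 := ⟨_, rfl⟩
  have hc1 : y < c := by rw [hc]; linarith
  have hc2 : Real.log (1 + 2 * y) ≤ Real.log (1 + 2 * c) := Real.log_le_log (by linarith) (by linarith)
  have hc3 : c - Real.log (1 + 2 * c) / 2 < b := by rw [hc] at hc2 ⊢; linarith
  exact not_both (k + 1) c (as_step hlim k b c hb1 (by linarith) hc3 (hx1 b hb1 hb2)) (hy2 c hc1)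

end Cor

end Pool.Agent.H74.CT
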