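import Mathlib

set_option autoImplicit false

/-!
# [H74 CT Defs] MP_b747bb_pr, consecutive colouring thresholds (helper74)

THEOREM. `h(c) = c - (1/2) log (1 + 2c)`. If `k ≥ 1`, `b, c > 0`, `h(c) < b` and a.s. `χ(G_{n,bn}) ≤ k`, then a.s. `χ(G_{n,cn}) ≤ k + 1`.
Hence `c_{k+1}* ≥ c_k* + (1/2) log (1 + 2 c_{k+1}*)`.

PLAN. Random subsets `E` of the set `Pr n` of pairs `i < j` of `Fin n`, each pair with probability `p` (`ex`: expectation), `gr E` the graph.
`Ac k n p` = probability that `gr E` is `k`-colourable, `Pm k n M` = proportion of the `k`-colourable graphs among those with `M` edges.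
First-fit independent set `I` (`IsFF E I`): `v ∈ I` iff no `u ∈ I`, `u < v`, is a neighbour of `v`. With `q = 1 - p`, `a = q⁻¹ - 1`,
`Y = (q⁻¹) ^ |I|`: `E Y = 1 + n a`, `E Y² = 1 + a (a + 2) (n + a n (n-1) / 2)`, so `Var Y = a³ n (n-1) / 2`. The event `IsFF E I` depends on the pairs
which meet `I` only, so `gr E` without `I` is a fresh random graph on `n - |I|` vertices: `Ac (k+1) n p ≥ P(|I| ≥ s) Ac k (n-s) p`.
-/

namespace Pool.Agent.H74.CT

/-- the pairs `i < j` -/
abbrev Pr (n : ℕ) := {e : Fin n × Fin n // e.1 < e.2}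

/-- the graph with the edges `E` -/
def gr {n : ℕ} (E : Finset (Pr n)) : SimpleGraph (Fin n) where
  Adj i j := (∃ h : i < j, (⟨(i, j), h⟩ : Pr n) ∈ E) ∨ ∃ h : j < i, (⟨(j, i), h⟩ : Pr n) ∈ E
  symm := ⟨fun _ _ h => h.symm⟩
  loopless := ⟨fun _ h => by
    rcases h with ⟨h, _⟩ | ⟨h, _⟩ <;> exact lt_irrefl _ h⟩

/-- expectation of `f E`, `E` a random subset, each element with probability `p` -/
noncomputable def ex (α : Type) [Fintype α] (p : ℝ) (f : Finset α → ℝ) : ℝ :=
  ∑ E : Finset α, p ^ E.card * (1 - p) ^ (Fintype.card α - E.card) * f E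

open Classical in
/-- indicator -/
noncomputable def ind (P : Prop) : ℝ := if P then 1 else 0

/-- the probability that the random graph is `k`-colourable -/
noncomputable def Ac (k n : ℕ) (p : ℝ) : ℝ := ex (Pr n) p fun E => ind ((gr E).Colorable k)

/-- proportion of the sets with property `A` among the sets with `M` elements (`0` if `M` is larger than the number of elements of `α`) -/
noncomputable def ratio {α : Type} [Fintype α] (A : Finset α → Prop) (M : ℕ) : ℝ :=
  (Nat.card {E : Finset α // E.card = M ∧ A E} : ℝ) / ((Fintype.card α).choose M : ℝ)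

/-- proportion of the `k`-colourable graphs among the graphs with `M` edges -/
noncomputable def Pm (k n M : ℕ) : ℝ := ratio (fun E : Finset (Pr n) => (gr E).Colorable k) M

/-- the first-fit independent set -/
def IsFF {n : ℕ} (E : Finset (Pr n)) (I : Finset (Fin n)) : Prop :=
  ∀ v, v ∈ I ↔ ∀ u, ∀ h : u < v, u ∈ I → (⟨(u, v), h⟩ : Pr n) ∉ E

/-- the union of a subset of `β` and a subset of `γ`, moved to `α` -/
def join {α β γ : Type} (e : β ⊕ γ ≃ α) (B : Finset β) (C : Finset γ) : Finset α :=
  (B.disjSum C).map e.toEmbedding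

end Pool.Agent.H74.CT
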