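import Pool.Agent.H74.CT.Fr

set_option autoImplicit false

/-!
# The pairs of `Fin (n + 1)`
-/

namespace Pool.Agent.H74.CT

namespace Ext

/-- the map -/
def fn (n : ℕ) : Pr n ⊕ Fin n → Pr (n + 1)
  | Sum.inl x => ⟨(x.1.1.castSucc, x.1.2.castSucc), Fin.castSucc_lt_castSucc_iff.2 x.2⟩
  | Sum.inr u => ⟨(u.castSucc, Fin.last n), Fin.castSucc_lt_last u⟩

theorem inj (n : ℕ) : Function.Injective (fn n) := by
  intro a b h
  have h1 := congrArg Subtype.val h
  rcases a with x | u <;> rcases b with y | v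
  · have h2 : x.1.1.castSucc = y.1.1.castSucc := congrArg Prod.fst h1
    have h3 : x.1.2.castSucc = y.1.2.castSucc := congrArg Prod.snd h1
    congr 1
    exact Subtype.ext (Prod.ext (Fin.castSucc_injective n h2) (Fin.castSucc_injective n h3))
  · have h3 : x.1.2.castSucc = Fin.last n := congrArg Prod.snd h1
    exact absurd h3 (Fin.castSucc_lt_last _).ne
  · have h3 : Fin.last n = y.1.2.castSucc := congrArg Prod.snd h1
    exact absurd h3.symm (Fin.castSucc_lt_last _).ne
  · have h2 : u.castSucc = v.castSucc := congrArg Prod.fst h1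
    rw [Fin.castSucc_injective n h2]

theorem surj (n : ℕ) : Function.Surjective (fn n) := by
  rintro ⟨⟨i, j⟩, hij⟩
  have hij' : i < j := hij
  rcases Fin.eq_castSucc_or_eq_last i with ⟨u, rfl⟩ | rfl
  · rcases Fin.eq_castSucc_or_eq_last j with ⟨v, rfl⟩ | rfl
    · exact ⟨Sum.inl ⟨(u, v), Fin.castSucc_lt_castSucc_iff.1 hij'⟩, rfl⟩
    · exact ⟨Sum.inr u, rfl⟩
  · exact absurd hij' (not_lt.2 (Fin.le_last j))

end Ext

theorem ext0 : ExtStmt := fun n =>
  ⟨Equiv.ofBijective (Ext.fn n) ⟨Ext.inj n, Ext.surj n⟩, fun _ => rfl, fun _ => rfl⟩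

end Pool.Agent.H74.CT
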