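import Pool.Agent.H74.CT.Fr

set_option autoImplicit false

/-!
# [H74 CT Ind] the graph on the complement of the first-fit set is a fresh random graph (helper27)
-/

namespace Pool.Agent.H74.CT

namespace IndAux

variable {α β γ : Type}

theorem inl_mem (e : β ⊕ γ ≃ α) (B : Finset β) (C : Finset γ) (b : β) :
    e (Sum.inl b) ∈ join e B C ↔ b ∈ B := by
  unfold join
  rw [Finset.mem_map_equiv, Equiv.symm_apply_apply, Finset.inl_mem_disjSum]

theorem inr_mem (e : β ⊕ γ ≃ α) (B : Finset β) (C : Finset γ) (c : γ) :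
    e (Sum.inr c) ∈ join e B C ↔ c ∈ C := by
  unfold join
  rw [Finset.mem_map_equiv, Equiv.symm_apply_apply, Finset.inr_mem_disjSum]

/-- the two parts of the pairs -/
theorem split {n : ℕ} (I : Finset (Fin n)) : ∃ (emb : Fin (n - I.card) ↪o Fin n)
    (e : {x : Pr n // x.1.1 ∈ I ∨ x.1.2 ∈ I} ⊕ Pr (n - I.card) ≃ Pr n),
    (∀ v, (∃ i, emb i = v) ↔ v ∉ I) ∧ (∀ b, e (Sum.inl b) = b.1) ∧
    (∀ (i j : Fin (n - I.card)) (h : i < j), e (Sum.inr ⟨(i, j), h⟩) = ⟨(emb i, emb j), emb.lt_iff_lt.2 h⟩) := by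
  classical
  have hm : (Iᶜ : Finset (Fin n)).card = n - I.card := by
    rw [Finset.card_compl, Fintype.card_fin]
  have hr : ∀ v, (∃ i, (Iᶜ).orderEmbOfFin hm i = v) ↔ v ∉ I := by
    intro v
    have h := Finset.range_orderEmbOfFin (Iᶜ) hm
    have h2 : v ∈ Set.range ((Iᶜ).orderEmbOfFin hm) ↔ v ∈ ((Iᶜ : Finset (Fin n)) : Set (Fin n)) := by rw [h]
    rw [Set.mem_range, Finset.mem_coe, Finset.mem_compl] at h2
    exact h2
  generalize (Iᶜ).orderEmbOfFin hm = emb at hr
  have hbij : Function.Bijective (Sum.elim (fun b : {x : Pr n // x.1.1 ∈ I ∨ x.1.2 ∈ I} => b.1)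
      (fun c : Pr (n - I.card) => (⟨(emb c.1.1, emb c.1.2), emb.lt_iff_lt.2 c.2⟩ : Pr n))) := by
    constructor
    · rintro (b | c) (b' | c') h
      · simp only [Sum.elim_inl] at h
        rw [Subtype.ext h]
      · exfalso
        simp only [Sum.elim_inl, Sum.elim_inr] at h
        have hb := b.2
        rw [h] at hb
        rcases hb with hb | hb
        · exact (hr _).1 ⟨_, rfl⟩ hb
        · exact (hr _).1 ⟨_, rfl⟩ hb
      · exfalso
        simp only [Sum.elim_inl, Sum.elim_inr] at h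
        have hb := b'.2
        rw [← h] at hb
        rcases hb with hb | hb
        · exact (hr _).1 ⟨_, rfl⟩ hb
        · exact (hr _).1 ⟨_, rfl⟩ hb
      · simp only [Sum.elim_inr] at h
        have h1 := Prod.mk.inj (Subtype.mk.inj h)
        congr 1
        exact Subtype.ext (Prod.ext (emb.injective h1.1) (emb.injective h1.2))
    · rintro ⟨⟨u, v⟩, huv⟩
      by_cases h : u ∈ I ∨ v ∈ I
      · exact ⟨Sum.inl ⟨⟨(u, v), huv⟩, h⟩, rfl⟩
      · push Not at h
        obtain ⟨i, hi⟩ := (hr u).2 h.1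
        obtain ⟨j, hj⟩ := (hr v).2 h.2
        subst hi hj
        exact ⟨Sum.inr ⟨(i, j), emb.lt_iff_lt.1 huv⟩, rfl⟩
  exact ⟨emb, Equiv.ofBijective _ hbij, hr, fun b => rfl, fun i j h => rfl⟩

end IndAux

open IndAux in
theorem indp (hprd : PrdStmt) (hbas : BasStmt) : IndStmt := by
  classical
  intro k n p I
  obtain ⟨emb, e, hr, hl, hin⟩ := split I
  -- the event
  have hFF : ∀ B C, IsFF (join e B C) I ↔ IsFF (join e B ∅) I := by
    intro B C
    have h1 : ∀ (u v : Fin n) (h : u < v), u ∈ I →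
        ((⟨(u, v), h⟩ : Pr n) ∈ join e B C ↔ (⟨(u, v), h⟩ : Pr n) ∈ join e B ∅) := by
      intro u v h hu
      have h2 := hl ⟨⟨(u, v), h⟩, Or.inl hu⟩
      have h3 : (⟨(u, v), h⟩ : Pr n) = e (Sum.inl ⟨⟨(u, v), h⟩, Or.inl hu⟩) := h2.symm
      rw [h3, inl_mem, inl_mem]
    unfold IsFF
    constructor
    · intro h v
      rw [h v]
      constructor
      · intro h2 u huv hu
        rw [← h1 u v huv hu]
        exact h2 u huv hu
      · intro h2 u huv hu
        rw [h1 u v huv hu]
        exact h2 u huv hu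
    · intro h v
      rw [h v]
      constructor
      · intro h2 u huv hu
        rw [h1 u v huv hu]
        exact h2 u huv hu
      · intro h2 u huv hu
        rw [← h1 u v huv hu]
        exact h2 u huv hu
  -- the graph
  have hadj : ∀ B C (i j : Fin (n - I.card)), (gr (join e B C)).Adj (emb i) (emb j) ↔ (gr C).Adj i j := by
    intro B C i j
    have h1 : ∀ (i j : Fin (n - I.card)), (∃ h : emb i < emb j, (⟨(emb i, emb j), h⟩ : Pr n) ∈ join e B C) ↔
        ∃ h : i < j, (⟨(i, j), h⟩ : Pr (n - I.card)) ∈ C := by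
      intro i j
      constructor
      · rintro ⟨h, hm⟩
        refine ⟨emb.lt_iff_lt.1 h, ?_⟩
        rw [← hin i j (emb.lt_iff_lt.1 h), inr_mem] at hm
        exact hm
      · rintro ⟨h, hm⟩
        refine ⟨emb.lt_iff_lt.2 h, ?_⟩
        rw [← hin i j h, inr_mem]
        exact hm
    show (_ ∨ _) ↔ (_ ∨ _)
    rw [h1 i j, h1 j i]
  have hcol : ∀ B C, (((gr (join e B C)).induce {v | v ∉ I}).Colorable k) ↔ (gr C).Colorable k := by
    intro B C
    constructor
    · intro h
      refine h.of_hom ⟨fun i => ⟨emb i, (hr _).1 ⟨i, rfl⟩⟩, ?_⟩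
      intro i j hij
      exact (hadj B C i j).2 hij
    · intro h
      have hex : ∀ v : {v : Fin n | v ∉ I}, ∃ i, emb i = v.1 := fun v => (hr v.1).2 v.2
      choose ψ hψ using hex
      refine h.of_hom ⟨ψ, ?_⟩
      intro v w hvw
      have h2 : (gr (join e B C)).Adj v.1 w.1 := hvw
      rw [← hψ v, ← hψ w] at h2
      exact (hadj B C _ _).1 h2
  have e1 := hprd (Pr n) _ _ e p (fun E => ind (IsFF E I) * ind (((gr E).induce {v | v ∉ I}).Colorable k))
  have e2 := hprd (Pr n) _ _ e p (fun E => ind (IsFF E I))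
  have hF : ∀ B C, ind (IsFF (join e B C) I) = ind (IsFF (join e B ∅) I) := by
    intro B C
    rw [propext (hFF B C)]
  have hG : ∀ B C, ind (((gr (join e B C)).induce {v | v ∉ I}).Colorable k) = ind ((gr C).Colorable k) := by
    intro B C
    rw [propext (hcol B C)]
  simp only [hF, hG] at e1
  have e2' : ex (Pr n) p (fun E => ind (IsFF E I)) =
      ex {x : Pr n // x.1.1 ∈ I ∨ x.1.2 ∈ I} p fun B => ind (IsFF (join e B ∅) I) := by
    rw [e2]
    congr 1
    funext B
    have h3 : (fun C : Finset (Pr (n - I.card)) => ind (IsFF (join e B C) I)) = fun _ => ind (IsFF (join e B ∅) I) := by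
      funext C
      exact hF B C
    rw [h3]
    exact (hbas _ p).1 _
  rw [e1, e2']
  have e3 : (fun B : Finset {x : Pr n // x.1.1 ∈ I ∨ x.1.2 ∈ I} =>
      ex (Pr (n - I.card)) p fun C => ind (IsFF (join e B ∅) I) * ind ((gr C).Colorable k)) =
      fun B => Ac k (n - I.card) p * ind (IsFF (join e B ∅) I) := by
    funext B
    rw [(hbas _ p).2.2.1, mul_comm]
    rfl
  rw [e3, (hbas _ p).2.2.1, mul_comm]

end Pool.Agent.H74.CT
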