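import Pool.Agent.H74.CT.Fr

set_option autoImplicit false

/-!
# Fewer vertices
-/

namespace Pool.Agent.H74.CT

namespace Mon

theorem ind_le {P Q : Prop} (h : P → Q) : ind P ≤ ind Q := by
  unfold ind
  by_cases hP : P
  · rw [if_pos hP, if_pos (h hP)]
  · rw [if_neg hP]
    split_ifs
    · exact zero_le_one
    · exact le_refl _

theorem adj {n : ℕ} (e : Pr n ⊕ Fin n ≃ Pr (n + 1))
    (he : ∀ x : Pr n, (e (Sum.inl x)).1 = (x.1.1.castSucc, x.1.2.castSucc))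
    (B : Finset (Pr n)) (C : Finset (Fin n)) {i j : Fin n} (h : i < j)
    (hm : (⟨(i, j), h⟩ : Pr n) ∈ B) :
    ∃ h' : i.castSucc < j.castSucc, (⟨(i.castSucc, j.castSucc), h'⟩ : Pr (n + 1)) ∈ join e B C := by
  refine ⟨Fin.castSucc_lt_castSucc_iff.2 h, ?_⟩
  unfold join
  rw [Finset.mem_map]
  refine ⟨Sum.inl ⟨(i, j), h⟩, Finset.inl_mem_disjSum.2 hm, ?_⟩
  exact Subtype.ext (he ⟨(i, j), h⟩)

theorem col {n : ℕ} (e : Pr n ⊕ Fin n ≃ Pr (n + 1))
    (he : ∀ x : Pr n, (e (Sum.inl x)).1 = (x.1.1.castSucc, x.1.2.castSucc)) (k : ℕ)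
    (B : Finset (Pr n)) (C : Finset (Fin n)) (h : (gr (join e B C)).Colorable k) :
    (gr B).Colorable k := by
  obtain ⟨c⟩ := h
  refine ⟨SimpleGraph.Coloring.mk (fun v => c v.castSucc) ?_⟩
  intro i j hij
  apply c.valid
  rcases hij with ⟨h, hm⟩ | ⟨h, hm⟩
  · exact Or.inl (adj e he B C h hm)
  · exact Or.inr (adj e he B C h hm)

theorem step (hprd : PrdStmt) (hbas : BasStmt) (hext : ExtStmt) (k n : ℕ) (p : ℝ) (h0 : 0 ≤ p)
    (h1 : p ≤ 1) : Ac k (n + 1) p ≤ Ac k n p := by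
  obtain ⟨e, he, -⟩ := hext n
  unfold Ac
  rw [hprd (Pr (n + 1)) (Pr n) (Fin n) e p]
  refine (hbas (Pr n) p).2.2.2.2 _ _ h0 h1 fun B => ?_
  have h2 := (hbas (Fin n) p).1 (ind ((gr B).Colorable k))
  rw [← h2]
  exact (hbas (Fin n) p).2.2.2.2 _ _ h0 h1 fun C => ind_le (col e he k B C)

end Mon

theorem mon (hprd : PrdStmt) (hbas : BasStmt) (hext : ExtStmt) : MonStmt := by
  intro k m n p h0 h1 hmn
  induction n, hmn using Nat.le_induction with
  | base => exact le_refl _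
  | succ n _ ih => exact (Mon.step hprd hbas hext k n p h0 h1).trans ih

end Pool.Agent.H74.CT
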