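import Pool.Agent.H74.CT.Fr

set_option autoImplicit false

/-!
# [H74 CT Mst] the main inequality for `G(n,p)` (helper74)
-/

namespace Pool.Agent.H74.CT

namespace Mst

theorem ind_nonneg (P : Prop) : 0 ≤ ind P := by
  unfold ind; split <;> norm_num

theorem ind_le_one (P : Prop) : ind P ≤ 1 := by
  unfold ind; split <;> norm_num

theorem ind_true {P : Prop} (h : P) : ind P = 1 := by
  unfold ind; rw [if_pos h]

theorem ind_false {P : Prop} (h : ¬ P) : ind P = 0 := by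
  unfold ind; rw [if_neg h]

theorem ind_mono {P Q : Prop} (h : P → Q) : ind P ≤ ind Q := by
  by_cases hP : P
  · rw [ind_true hP, ind_true (h hP)]
  · rw [ind_false hP]; exact ind_nonneg Q

theorem W_zero (p : ℝ) (f : ℕ → ℝ) : W 0 p f = f 0 := by
  unfold W ex
  rw [Fintype.sum_subsingleton _ (∅ : Finset (Pr 0))]
  have h : IsFF (∅ : Finset (Pr 0)) (∅ : Finset (Fin 0)) := fun v => v.elim0
  have h2 : (∑ I : Finset (Fin 0), ind (IsFF (∅ : Finset (Pr 0)) I) * f I.card) = f 0 := by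
    rw [Fintype.sum_subsingleton _ (∅ : Finset (Fin 0)), ind_true h]
    simp
  simp only [h2]
  simp

theorem W_add (hbas : BasStmt) (n : ℕ) (p : ℝ) (f g : ℕ → ℝ) :
    W n p (fun s => f s + g s) = W n p f + W n p g := by
  unfold W
  rw [← (hbas (Pr n) p).2.1]
  congr 1
  funext E
  rw [← Finset.sum_add_distrib]
  refine Finset.sum_congr rfl fun I _ => ?_
  ring

theorem W_mul (hbas : BasStmt) (n : ℕ) (p : ℝ) (c : ℝ) (f : ℕ → ℝ) :
    W n p (fun s => c * f s) = c * W n p f := by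
  unfold W
  rw [← (hbas (Pr n) p).2.2.1]
  congr 1
  funext E
  rw [Finset.mul_sum]
  refine Finset.sum_congr rfl fun I _ => ?_
  ring

theorem W_mono (hbas : BasStmt) (n : ℕ) (p : ℝ) (h0 : 0 ≤ p) (h1 : p ≤ 1) (f g : ℕ → ℝ) (h : ∀ s, f s ≤ g s) :
    W n p f ≤ W n p g := by
  unfold W
  refine (hbas (Pr n) p).2.2.2.2 _ _ h0 h1 fun E => ?_
  refine Finset.sum_le_sum fun I _ => ?_
  exact mul_le_mul_of_nonneg_left (h _) (ind_nonneg _)

theorem W_one (hrec : RecStmt) (n : ℕ) (p : ℝ) : W n p (fun _ => 1) = 1 := by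
  induction n with
  | zero => rw [W_zero]
  | succ n ih =>
    rw [hrec]
    have : (fun s : ℕ => (1 - p) ^ s * (1 : ℝ) + (1 - (1 - p) ^ s) * 1) = fun _ => (1 : ℝ) := by
      funext s; ring
    rw [this, ih]

theorem W_r (hbas : BasStmt) (hrec : RecStmt) (n : ℕ) (p : ℝ) (h1 : p < 1) :
    W n p (fun s => ((1 - p)⁻¹) ^ s) = 1 + n * ((1 - p)⁻¹ - 1) := by
  have hq : (1 - p) ≠ 0 := by linarith
  induction n with
  | zero => rw [W_zero]; simp
  | succ n ih =>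
    rw [hrec]
    have : (fun s : ℕ => (1 - p) ^ s * ((1 - p)⁻¹) ^ (s + 1) + (1 - (1 - p) ^ s) * ((1 - p)⁻¹) ^ s) =
        fun s : ℕ => ((1 - p)⁻¹) ^ s + ((1 - p)⁻¹ - 1) * 1 := by
      funext s
      have h : (1 - p) ^ s * ((1 - p)⁻¹) ^ s = 1 := by
        rw [← mul_pow, mul_inv_cancel₀ hq, one_pow]
      rw [pow_succ]
      linear_combination ((1 - p)⁻¹ - 1) * h
    rw [this, W_add hbas, W_mul hbas, ih, W_one hrec]
    push_cast
    ring

theorem W_r2 (hbas : BasStmt) (hrec : RecStmt) (n : ℕ) (p : ℝ) (h1 : p < 1) :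
    W n p (fun s => (((1 - p)⁻¹) ^ s) ^ 2) =
      1 + ((1 - p)⁻¹ - 1) * ((1 - p)⁻¹ + 1) * (n + ((1 - p)⁻¹ - 1) * (n * (n - 1) / 2)) := by
  have hq : (1 - p) ≠ 0 := by linarith
  induction n with
  | zero => rw [W_zero]; simp
  | succ n ih =>
    rw [hrec]
    have : (fun s : ℕ => (1 - p) ^ s * (((1 - p)⁻¹) ^ (s + 1)) ^ 2 + (1 - (1 - p) ^ s) * (((1 - p)⁻¹) ^ s) ^ 2) =
        fun s : ℕ => (((1 - p)⁻¹) ^ s) ^ 2 + (((1 - p)⁻¹ - 1) * ((1 - p)⁻¹ + 1)) * ((1 - p)⁻¹) ^ s := by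
      funext s
      have h : (1 - p) ^ s * ((1 - p)⁻¹) ^ s = 1 := by
        rw [← mul_pow, mul_inv_cancel₀ hq, one_pow]
      rw [pow_succ]
      linear_combination (((1 - p)⁻¹ - 1) * ((1 - p)⁻¹ + 1)) * ((1 - p)⁻¹) ^ s * h
    rw [this, W_add hbas, W_mul hbas, ih, W_r hbas hrec n p h1]
    push_cast
    ring

theorem cheb (hbas : BasStmt) (hrec : RecStmt) (n s : ℕ) (p δ : ℝ) (h0 : 0 ≤ p) (h1 : p < 1) (hδ : 0 < δ)
    (hs : ((1 - p)⁻¹) ^ s ≤ 1 + n * ((1 - p)⁻¹ - 1) - δ) :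
    W n p (fun j => ind (j < s)) ≤ ((1 - p)⁻¹ - 1) ^ 3 * n ^ 2 / (2 * δ ^ 2) := by
  set r := (1 - p)⁻¹ with hr
  have hq : 0 < 1 - p := by linarith
  have hr1 : 1 ≤ r := by
    rw [hr]
    exact (one_le_inv₀ hq).2 (by linarith)
  set μ : ℝ := 1 + n * (r - 1) with hμ
  have hle : ∀ j : ℕ, ind (j < s) ≤ (δ ^ 2)⁻¹ * (r ^ j) ^ 2 + ((-(2 * μ) * (δ ^ 2)⁻¹) * r ^ j + (μ ^ 2 * (δ ^ 2)⁻¹) * 1) := by
    intro j
    have e : (δ ^ 2)⁻¹ * (r ^ j) ^ 2 + ((-(2 * μ) * (δ ^ 2)⁻¹) * r ^ j + (μ ^ 2 * (δ ^ 2)⁻¹) * 1) =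
        (μ - r ^ j) ^ 2 * (δ ^ 2)⁻¹ := by ring
    rw [e]
    by_cases hj : j < s
    · rw [ind_true hj]
      have h2 : r ^ j ≤ r ^ s := pow_le_pow_right₀ hr1 hj.le
      have h3 : δ ≤ μ - r ^ j := by linarith
      have h4 : δ ^ 2 ≤ (μ - r ^ j) ^ 2 := by
        apply pow_le_pow_left₀ hδ.le h3
      rw [← div_eq_mul_inv, le_div_iff₀ (by positivity)]
      linarith
    · rw [ind_false hj]
      positivity
  refine (W_mono hbas n p h0 h1.le _ _ hle).trans ?_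
  rw [W_add hbas, W_mul hbas, W_add hbas, W_mul hbas, W_mul hbas (f := fun _ => (1 : ℝ)), W_one hrec, W_r hbas hrec n p h1,
    W_r2 hbas hrec n p h1, ← hr]
  have hn : (0 : ℝ) ≤ n := Nat.cast_nonneg n
  have e2 : (δ ^ 2)⁻¹ * (1 + (r - 1) * (r + 1) * (n + (r - 1) * (n * (n - 1) / 2))) +
      (-(2 * μ) * (δ ^ 2)⁻¹ * (1 + n * (r - 1)) + μ ^ 2 * (δ ^ 2)⁻¹ * 1) =
      (δ ^ 2)⁻¹ * ((r - 1) ^ 3 * (n * (n - 1) / 2)) := by
    rw [hμ]; ring
  rw [e2]
  have e3 : (r - 1) ^ 3 * (n : ℝ) ^ 2 / (2 * δ ^ 2) = (δ ^ 2)⁻¹ * ((r - 1) ^ 3 * (n ^ 2 / 2)) := by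
    rw [mul_comm 2 (δ ^ 2), div_eq_mul_inv, mul_inv]; ring
  rw [e3]
  refine mul_le_mul_of_nonneg_left ?_ (by positivity)
  refine mul_le_mul_of_nonneg_left ?_ (pow_nonneg (by linarith) 3)
  nlinarith

end Mst

open Mst in
theorem mst (hbas : BasStmt) (huni : UniStmt) (hcol : ColStmt) (hind : IndStmt) (hrec : RecStmt) (hmon : MonStmt) :
    MstStmt := by
  intro k n s p δ h0 h1 hδ hs
  have hA : 0 ≤ Ac k (n - s) p := by
    have h := (hbas (Pr (n - s)) p).2.2.2.2 (fun _ => (0 : ℝ)) (fun E => ind ((gr E).Colorable k)) h0 h1.le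
      (fun E => ind_nonneg _)
    rw [(hbas (Pr (n - s)) p).1] at h
    exact h
  -- step 1
  have s1 : ex (Pr n) p (fun E => ∑ I : Finset (Fin n), ind (IsFF E I) * ind (((gr E).induce {v | v ∉ I}).Colorable k)) ≤
      Ac (k + 1) n p := by
    refine (hbas (Pr n) p).2.2.2.2 _ _ h0 h1.le fun E => ?_
    obtain ⟨I₀, hI₀, hu⟩ := huni n E
    rw [Finset.sum_eq_single I₀]
    · rw [ind_true hI₀, one_mul]
      exact ind_mono fun h => hcol n k E I₀ hI₀ h
    · intro I _ hne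
      rw [ind_false (fun h => hne (hu I h)), zero_mul]
    · intro h
      exact absurd (Finset.mem_univ _) h
  -- step 2
  have s2 : ex (Pr n) p (fun E => ∑ I : Finset (Fin n), ind (IsFF E I) * ind (((gr E).induce {v | v ∉ I}).Colorable k)) =
      ∑ I : Finset (Fin n), ex (Pr n) p (fun E => ind (IsFF E I)) * Ac k (n - I.card) p := by
    rw [(hbas (Pr n) p).2.2.2.1 (Finset (Fin n)) Finset.univ
      (fun I E => ind (IsFF E I) * ind (((gr E).induce {v | v ∉ I}).Colorable k))]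
    exact Finset.sum_congr rfl fun I _ => hind k n p I
  -- step 3
  have s3 : W n p (fun j => ind (s ≤ j)) * Ac k (n - s) p ≤
      ∑ I : Finset (Fin n), ex (Pr n) p (fun E => ind (IsFF E I)) * Ac k (n - I.card) p := by
    unfold W
    rw [(hbas (Pr n) p).2.2.2.1 (Finset (Fin n)) Finset.univ (fun I E => ind (IsFF E I) * ind (s ≤ I.card)),
      Finset.sum_mul]
    refine Finset.sum_le_sum fun I _ => ?_
    have e : ex (Pr n) p (fun E => ind (IsFF E I) * ind (s ≤ I.card)) =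
        ind (s ≤ I.card) * ex (Pr n) p (fun E => ind (IsFF E I)) := by
      rw [← (hbas (Pr n) p).2.2.1]
      congr 1
      funext E
      ring
    have hnn : 0 ≤ ex (Pr n) p (fun E => ind (IsFF E I)) := by
      have h := (hbas (Pr n) p).2.2.2.2 (fun _ => (0 : ℝ)) (fun E => ind (IsFF E I)) h0 h1.le (fun E => ind_nonneg _)
      rw [(hbas (Pr n) p).1] at h
      exact h
    rw [e]
    by_cases hI : s ≤ I.card
    · rw [ind_true hI, one_mul]
      exact mul_le_mul_of_nonneg_left (hmon k (n - I.card) (n - s) p h0 h1.le (by omega)) hnn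
    · rw [ind_false hI, zero_mul, zero_mul]
      refine mul_nonneg hnn ?_
      have h := (hbas (Pr (n - I.card)) p).2.2.2.2 (fun _ => (0 : ℝ)) (fun E => ind ((gr E).Colorable k)) h0 h1.le
        (fun E => ind_nonneg _)
      rw [(hbas (Pr (n - I.card)) p).1] at h
      exact h
  -- step 4
  have s4 : 1 - ((1 - p)⁻¹ - 1) ^ 3 * n ^ 2 / (2 * δ ^ 2) ≤ W n p (fun j => ind (s ≤ j)) := by
    have h := cheb hbas hrec n s p δ h0 h1 hδ hs
    have e : W n p (fun j => ind (s ≤ j)) + W n p (fun j => ind (j < s)) = 1 := by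
      rw [← W_add hbas, ← W_one hrec n p]
      congr 1
      funext j
      by_cases hj : j < s
      · rw [ind_true hj, ind_false (not_le.2 hj)]; norm_num
      · rw [ind_false hj, ind_true (not_lt.1 hj)]; norm_num
    linarith
  calc (1 - ((1 - p)⁻¹ - 1) ^ 3 * n ^ 2 / (2 * δ ^ 2)) * Ac k (n - s) p
      ≤ W n p (fun j => ind (s ≤ j)) * Ac k (n - s) p := mul_le_mul_of_nonneg_right s4 hA
    _ ≤ _ := s3
    _ = _ := s2.symm
    _ ≤ _ := s1

end Pool.Agent.H74.CT
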