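import Pool.Agent.H74.CT.Fr

set_option autoImplicit false

/-!
# [H74 CT Prd] independence of the two parts (helper96)
-/

namespace Pool.Agent.H74.CT

namespace Prd

/-- a pair of subsets and the subset of the union -/
private def eqv {α β γ : Type} (e : β ⊕ γ ≃ α) : Finset β × Finset γ ≃ Finset α where
  toFun q := join e q.1 q.2
  invFun E := ((E.map e.symm.toEmbedding).toLeft, (E.map e.symm.toEmbedding).toRight)
  left_inv q := by
    have h : (join e q.1 q.2).map e.symm.toEmbedding = q.1.disjSum q.2 := by
      unfold join
      rw [Finset.map_map]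
      have h2 : e.toEmbedding.trans e.symm.toEmbedding = Function.Embedding.refl _ := by
        ext x
        simp
      rw [h2, Finset.map_refl]
    simp only [h, Finset.toLeft_disjSum, Finset.toRight_disjSum]
  right_inv E := by
    show join e _ _ = E
    unfold join
    rw [Finset.toLeft_disjSum_toRight, Finset.map_map]
    have h2 : e.symm.toEmbedding.trans e.toEmbedding = Function.Embedding.refl _ := by
      ext x
      simp
    rw [h2, Finset.map_refl]

private theorem card_join {α β γ : Type} (e : β ⊕ γ ≃ α) (B : Finset β) (C : Finset γ) :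
    (join e B C).card = B.card + C.card := by
  unfold join
  rw [Finset.card_map, Finset.card_disjSum]

end Prd

open Prd in
theorem prd : PrdStmt := by
  intro α β γ _ _ _ e p F
  unfold ex
  have hc : Fintype.card α = Fintype.card β + Fintype.card γ := by
    rw [← Fintype.card_congr e, Fintype.card_sum]
  have h1 : ∑ B : Finset β, p ^ B.card * (1 - p) ^ (Fintype.card β - B.card) *
      ∑ C : Finset γ, p ^ C.card * (1 - p) ^ (Fintype.card γ - C.card) * F (join e B C) =
      ∑ q : Finset β × Finset γ, p ^ q.1.card * (1 - p) ^ (Fintype.card β - q.1.card) *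
        (p ^ q.2.card * (1 - p) ^ (Fintype.card γ - q.2.card) * F (join e q.1 q.2)) := by
    rw [Fintype.sum_prod_type]
    exact Finset.sum_congr rfl fun B _ => by rw [Finset.mul_sum]
  rw [h1]
  symm
  refine Fintype.sum_equiv (eqv e) _ _ fun q => ?_
  show _ = p ^ (join e q.1 q.2).card * (1 - p) ^ (Fintype.card α - (join e q.1 q.2).card) *
    F (join e q.1 q.2)
  have hB := Finset.card_le_univ q.1
  have hC := Finset.card_le_univ q.2
  have h2 : Fintype.card α - (join e q.1 q.2).card =
      (Fintype.card β - q.1.card) + (Fintype.card γ - q.2.card) := by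
    rw [card_join]
    omega
  rw [h2, card_join, pow_add, pow_add]
  ring

end Pool.Agent.H74.CT
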