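import Pool.Agent.H74.CT.Fr

set_option autoImplicit false

/-!
# [H74 CT Rec] one more vertex
-/

namespace Pool.Agent.H74.CT

open Finset

namespace RecAux

theorem ind_true {P : Prop} (h : P) : ind P = 1 := by
  unfold ind
  rw [if_pos h]

theorem ind_false {P : Prop} (h : ¬ P) : ind P = 0 := by
  unfold ind
  rw [if_neg h]

/-- the probability that the random set is disjoint from `I` -/
theorem ex_disj (n : ℕ) (p : ℝ) (I : Finset (Fin n)) :
    ex (Fin n) p (fun C => ind (∀ u ∈ I, u ∉ C)) = (1 - p) ^ I.card := by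
  classical
  unfold ex
  rw [Fintype.card_fin]
  have h1 : ∀ C : Finset (Fin n), p ^ C.card * (1 - p) ^ (n - C.card) * ind (∀ u ∈ I, u ∉ C) =
      if C ∈ (univ \ I).powerset then p ^ C.card * (1 - p) ^ (n - C.card) else 0 := by
    intro C
    by_cases h : ∀ u ∈ I, u ∉ C
    · rw [ind_true h, mul_one, if_pos]
      rw [mem_powerset]
      intro u hu
      rw [mem_sdiff]
      exact ⟨mem_univ _, fun hI => h u hI hu⟩
    · rw [ind_false h, mul_zero, if_neg]
      intro hC
      rw [mem_powerset] at hC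
      refine h fun u hu huC => ?_
      have := hC huC
      rw [mem_sdiff] at this
      exact this.2 hu
  rw [sum_congr rfl fun C _ => h1 C, ← sum_filter]
  have h2 : (univ.filter fun C : Finset (Fin n) => C ∈ (univ \ I).powerset) = (univ \ I).powerset := by
    ext C
    simp
  rw [h2]
  have hc : (univ \ I).card = n - I.card := by
    rw [card_sdiff_of_subset (subset_univ _), card_univ, Fintype.card_fin]
  have hI : I.card ≤ n := by
    have := card_le_univ I
    rwa [Fintype.card_fin] at this
  have h3 : ∀ C ∈ (univ \ I).powerset, p ^ C.card * (1 - p) ^ (n - C.card) =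
      (1 - p) ^ I.card * (p ^ C.card * (1 - p) ^ ((univ \ I).card - C.card)) := by
    intro C hC
    have h4 : C.card ≤ (univ \ I).card := card_le_card (mem_powerset.1 hC)
    rw [hc] at h4 ⊢
    have h5 : n - C.card = I.card + (n - I.card - C.card) := by omega
    rw [h5, pow_add]
    ring
  rw [sum_congr rfl h3, ← mul_sum, sum_pow_mul_eq_add_pow]
  have h6 : p + (1 - p) = 1 := by ring
  rw [h6, one_pow, mul_one]

/-- sets without the last vertex -/
def up0 {n : ℕ} (I : Finset (Fin n)) : Finset (Fin (n + 1)) := I.map Fin.castSuccEmb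

theorem mem_up0 {n : ℕ} (I : Finset (Fin n)) (u : Fin n) : u.castSucc ∈ up0 I ↔ u ∈ I := by
  unfold up0
  simp

theorem last_up0 {n : ℕ} (I : Finset (Fin n)) : Fin.last n ∉ up0 I := by
  unfold up0
  simp [Fin.castSucc_ne_last]

theorem card_up0 {n : ℕ} (I : Finset (Fin n)) : (up0 I).card = I.card := card_map _

theorem card_up1 {n : ℕ} (I : Finset (Fin n)) : (insert (Fin.last n) (up0 I)).card = I.card + 1 := by
  rw [card_insert_of_notMem (last_up0 I), card_up0]

theorem sum_split (n : ℕ) (g : Finset (Fin (n + 1)) → ℝ) :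
    ∑ I : Finset (Fin (n + 1)), g I = ∑ I : Finset (Fin n), (g (up0 I) + g (insert (Fin.last n) (up0 I))) := by
  classical
  have h1 : (univ : Finset (Fin (n + 1))) = insert (Fin.last n) (univ.map Fin.castSuccEmb) := by
    ext v
    refine Fin.lastCases ?_ (fun u => ?_) v
    · simp
    · simp
  have h2 : Fin.last n ∉ (univ : Finset (Fin n)).map Fin.castSuccEmb := by
    simp [Fin.castSucc_ne_last]
  have h3 : ∀ k : Finset (Fin (n + 1)) → ℝ,
      ∑ t ∈ ((univ : Finset (Fin n)).map Fin.castSuccEmb).powerset, k t = ∑ I : Finset (Fin n), k (up0 I) := by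
    intro k
    symm
    refine sum_bij (fun I _ => up0 I) ?_ ?_ ?_ ?_
    · intro I _
      rw [mem_powerset]
      exact map_subset_map.2 (subset_univ _)
    · intro I _ J _ h
      exact map_injective _ h
    · intro t ht
      rw [mem_powerset] at ht
      obtain ⟨I, _, hI⟩ := subset_map_iff.1 ht
      exact ⟨I, mem_univ _, hI.symm⟩
    · intro I _
      rfl
  rw [← powerset_univ, h1, sum_powerset_insert h2, h3, h3, ← sum_add_distrib]

theorem ff_split {n : ℕ} (e : Pr n ⊕ Fin n ≃ Pr (n + 1))
    (he1 : ∀ x : Pr n, (e (Sum.inl x)).1 = (x.1.1.castSucc, x.1.2.castSucc))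
    (he2 : ∀ u : Fin n, (e (Sum.inr u)).1 = (u.castSucc, Fin.last n))
    (B : Finset (Pr n)) (C : Finset (Fin n)) (J : Finset (Fin (n + 1))) (I : Finset (Fin n))
    (hJ : ∀ u : Fin n, u.castSucc ∈ J ↔ u ∈ I) :
    IsFF (join e B C) J ↔ IsFF B I ∧ (Fin.last n ∈ J ↔ ∀ u ∈ I, u ∉ C) := by
  have hj1 : ∀ (u v : Fin n) (h : u.castSucc < v.castSucc),
      (⟨(u.castSucc, v.castSucc), h⟩ : Pr (n + 1)) ∈ join e B C ↔
        (⟨(u, v), Fin.castSucc_lt_castSucc_iff.1 h⟩ : Pr n) ∈ B := by
    intro u v h
    have h1 : (⟨(u.castSucc, v.castSucc), h⟩ : Pr (n + 1)) =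
        e (Sum.inl ⟨(u, v), Fin.castSucc_lt_castSucc_iff.1 h⟩) :=
      Subtype.ext (he1 ⟨(u, v), Fin.castSucc_lt_castSucc_iff.1 h⟩).symm
    rw [h1]
    unfold join
    rw [mem_map_equiv, Equiv.symm_apply_apply, inl_mem_disjSum]
  have hj2 : ∀ (u : Fin n) (h : u.castSucc < Fin.last n),
      (⟨(u.castSucc, Fin.last n), h⟩ : Pr (n + 1)) ∈ join e B C ↔ u ∈ C := by
    intro u h
    have h1 : (⟨(u.castSucc, Fin.last n), h⟩ : Pr (n + 1)) = e (Sum.inr u) := Subtype.ext (he2 _).symm
    rw [h1]
    unfold join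
    rw [mem_map_equiv, Equiv.symm_apply_apply, inr_mem_disjSum]
  constructor
  · intro h
    refine ⟨fun v => ?_, ?_⟩
    · rw [← hJ v, h v.castSucc]
      constructor
      · intro h1 u hu huI
        have h2 := h1 u.castSucc (Fin.castSucc_lt_castSucc_iff.2 hu) ((hJ u).2 huI)
        rwa [hj1] at h2
      · intro h1 w hw hwJ
        obtain ⟨u, rfl⟩ : ∃ u : Fin n, w = u.castSucc := by
          refine ⟨w.castPred (ne_of_lt (lt_of_lt_of_le hw (Fin.le_last _))), ?_⟩
          simp
        rw [hj1]
        exact h1 u (Fin.castSucc_lt_castSucc_iff.1 hw) ((hJ u).1 hwJ)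
    · rw [h (Fin.last n)]
      constructor
      · intro h1 u huI
        have h2 := h1 u.castSucc (Fin.castSucc_lt_last u) ((hJ u).2 huI)
        rwa [hj2] at h2
      · intro h1 w hw hwJ
        obtain ⟨u, rfl⟩ : ∃ u : Fin n, w = u.castSucc := by
          refine ⟨w.castPred (ne_of_lt hw), ?_⟩
          simp
        rw [hj2]
        exact h1 u ((hJ u).1 hwJ)
  · rintro ⟨h, hl⟩ v
    refine Fin.lastCases ?_ (fun v => ?_) v
    · rw [hl]
      constructor
      · intro h1 w hw hwJ
        obtain ⟨u, rfl⟩ : ∃ u : Fin n, w = u.castSucc := by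
          refine ⟨w.castPred (ne_of_lt hw), ?_⟩
          simp
        rw [hj2]
        exact h1 u ((hJ u).1 hwJ)
      · intro h1 u huI
        have h2 := h1 u.castSucc (Fin.castSucc_lt_last u) ((hJ u).2 huI)
        rwa [hj2] at h2
    · rw [hJ v, h v]
      constructor
      · intro h1 w hw hwJ
        obtain ⟨u, rfl⟩ : ∃ u : Fin n, w = u.castSucc := by
          refine ⟨w.castPred (ne_of_lt (lt_of_lt_of_le hw (Fin.le_last _))), ?_⟩
          simp
        rw [hj1]
        exact h1 u (Fin.castSucc_lt_castSucc_iff.1 hw) ((hJ u).1 hwJ)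
      · intro h1 u hu huI
        have h2 := h1 u.castSucc (Fin.castSucc_lt_castSucc_iff.2 hu) ((hJ u).2 huI)
        rwa [hj1] at h2

end RecAux

open RecAux in
theorem recW (hprd : PrdStmt) (hbas : BasStmt) (hext : ExtStmt) : RecStmt := by
  classical
  intro n p f
  obtain ⟨e, he1, he2⟩ := hext n
  unfold W
  rw [hprd _ _ _ e p]
  congr 1
  funext B
  obtain ⟨hb1, hb2, hb3, hb4, -⟩ := hbas (Fin n) p
  have h1 : ∀ C : Finset (Fin n), (∑ I : Finset (Fin (n + 1)), ind (IsFF (join e B C) I) * f I.card) =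
      ∑ I : Finset (Fin n), (ind (IsFF B I) * f I.card +
        (ind (IsFF B I) * (f (I.card + 1) - f I.card)) * ind (∀ u ∈ I, u ∉ C)) := by
    intro C
    rw [sum_split]
    refine sum_congr rfl fun I _ => ?_
    have g0 := ff_split e he1 he2 B C (up0 I) I (mem_up0 I)
    have g1 := ff_split e he1 he2 B C (insert (Fin.last n) (up0 I)) I (fun u => by
      rw [mem_insert, mem_up0]
      exact ⟨fun h => h.resolve_left (Fin.castSucc_ne_last u), Or.inr⟩)
    rw [card_up0, card_up1]
    by_cases hF : IsFF B I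
    · by_cases hD : ∀ u ∈ I, u ∉ C
      · have k0 : ¬ IsFF (join e B C) (up0 I) := by
          rw [g0]
          rintro ⟨-, h⟩
          exact last_up0 I (h.2 hD)
        have k1 : IsFF (join e B C) (insert (Fin.last n) (up0 I)) := by
          rw [g1]
          exact ⟨hF, fun _ => hD, fun _ => mem_insert_self _ _⟩
        rw [ind_false k0, ind_true k1, ind_true hF, ind_true hD]
        ring
      · have k0 : IsFF (join e B C) (up0 I) := by
          rw [g0]
          exact ⟨hF, fun h => absurd h (last_up0 I), fun h => absurd h hD⟩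
        have k1 : ¬ IsFF (join e B C) (insert (Fin.last n) (up0 I)) := by
          rw [g1]
          rintro ⟨-, h⟩
          exact hD (h.1 (mem_insert_self _ _))
        rw [ind_true k0, ind_false k1, ind_true hF, ind_false hD]
        ring
    · have k0 : ¬ IsFF (join e B C) (up0 I) := fun h => hF (g0.1 h).1
      have k1 : ¬ IsFF (join e B C) (insert (Fin.last n) (up0 I)) := fun h => hF (g1.1 h).1
      rw [ind_false k0, ind_false k1, ind_false hF]
      ring
  have h2 : (fun C : Finset (Fin n) => ∑ I : Finset (Fin (n + 1)), ind (IsFF (join e B C) I) * f I.card) =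
      fun C => ∑ I : Finset (Fin n), (ind (IsFF B I) * f I.card +
        (ind (IsFF B I) * (f (I.card + 1) - f I.card)) * ind (∀ u ∈ I, u ∉ C)) := funext h1
  rw [h2, hb4]
  refine sum_congr rfl fun I _ => ?_
  rw [hb2, hb1, hb3, ex_disj]
  ring

end Pool.Agent.H74.CT
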