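import Pool.Agent.H74.CT.Fr

set_option autoImplicit false

/-!
# [H74 CT Uni] existence and uniqueness of the first-fit independent set
-/

namespace Pool.Agent.H74.CT

namespace UniM

/-- membership in the first-fit set, by recursion -/
noncomputable def mem {n : ℕ} (E : Finset (Pr n)) : Fin n → Prop :=
  WellFounded.fix (wellFounded_lt : WellFounded ((· < ·) : Fin n → Fin n → Prop))
    (fun v ih => ∀ u, ∀ h : u < v, ih u h → (⟨(u, v), h⟩ : Pr n) ∉ E)

theorem mem_iff {n : ℕ} (E : Finset (Pr n)) (v : Fin n) :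
    mem E v ↔ ∀ u, ∀ h : u < v, mem E u → (⟨(u, v), h⟩ : Pr n) ∉ E := by
  have h := WellFounded.fix_eq (wellFounded_lt : WellFounded ((· < ·) : Fin n → Fin n → Prop))
    (C := fun _ => Prop)
    (fun v ih => ∀ u, ∀ h : u < v, ih u h → (⟨(u, v), h⟩ : Pr n) ∉ E) v
  exact Eq.to_iff h

theorem unique {n : ℕ} {E : Finset (Pr n)} {I J : Finset (Fin n)} (hI : IsFF E I) (hJ : IsFF E J) :
    I = J := by
  have key : ∀ v : Fin n, v ∈ I ↔ v ∈ J := by
    intro v
    induction v using WellFoundedLT.induction with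
    | ind v ih =>
      rw [hI v, hJ v]
      constructor
      · intro h u hu hmem
        exact h u hu ((ih u hu).2 hmem)
      · intro h u hu hmem
        exact h u hu ((ih u hu).1 hmem)
  exact Finset.ext key

end UniM

open Classical in
theorem uni : UniStmt := by
  intro n E
  refine ⟨Finset.univ.filter fun v => UniM.mem E v, ?_, fun J hJ => ?_⟩
  · intro v
    rw [Finset.mem_filter]
    constructor
    · rintro ⟨_, h⟩ u hu hmem
      exact (UniM.mem_iff E v).1 h u hu (Finset.mem_filter.1 hmem).2
    · intro h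
      refine ⟨Finset.mem_univ _, (UniM.mem_iff E v).2 fun u hu hmem => ?_⟩
      exact h u hu (Finset.mem_filter.2 ⟨Finset.mem_univ _, hmem⟩)
  · refine UniM.unique hJ ?_
    intro v
    rw [Finset.mem_filter]
    constructor
    · rintro ⟨_, h⟩ u hu hmem
      exact (UniM.mem_iff E v).1 h u hu (Finset.mem_filter.1 hmem).2
    · intro h
      refine ⟨Finset.mem_univ _, (UniM.mem_iff E v).2 fun u hu hmem => ?_⟩
      exact h u hu (Finset.mem_filter.2 ⟨Finset.mem_univ _, hmem⟩)

end Pool.Agent.H74.CT
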