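import Pool.Agent.H74.CT.Cor
import Pool.Agent.H74.CT.Mst
import Pool.Agent.H74.CT.Bas
import Pool.Agent.H74.CT.Prd
import Pool.Agent.H74.CT.Uni
import Pool.Agent.H74.CT.Col
import Pool.Agent.H74.CT.Ext
import Pool.Agent.H74.CT.Mon
import Pool.Agent.H74.CT.Rec
import Pool.Agent.H74.CT.Ind
import Pool.Agent.H30.KC.Tra

set_option autoImplicit false

/-!
# [H74 CT Fin] assembly (helper74)
-/

namespace Pool.Agent.H74.CT

theorem limAll : LimStmt :=
  lim bas tra (mst bas uni col (indp prd bas) (recW prd bas ext0) (mon prd bas ext0))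

end Pool.Agent.H74.CT
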