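import Pool.Agent.H74.CT.Defs

set_option autoImplicit false

/-!
# [H74 CT Fr] statements of the modules (helper74)
-/

namespace Pool.Agent.H74.CT

open Filter Topology

/-- proportion of the `k`-colourable graphs among the graphs on `Fin n` with `M` edges -/
noncomputable def frac (k n M : ℕ) : ℝ :=
  (Nat.card {G : SimpleGraph (Fin n) // G.edgeSet.ncard = M ∧ G.Colorable k} : ℝ) /
    (Nat.card {G : SimpleGraph (Fin n) // G.edgeSet.ncard = M} : ℝ)

/-- `Tra` (helper30): `G(n,M)` and `G(n,p)`. -/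
def TraStmt : Prop := ∀ (k n M : ℕ) (p t : ℝ), 0 ≤ p → p ≤ 1 → 0 < t →
  ((n.choose 2 : ℝ) * p + t ≤ M → (1 - (n.choose 2 : ℝ) * p / t ^ 2) * frac k n M ≤ Ac k n p) ∧
  ((M : ℝ) + t ≤ (n.choose 2 : ℝ) * p → Ac k n p ≤ frac k n M + (n.choose 2 : ℝ) * p / t ^ 2)

/-- `Bas`: elementary properties of `ex`. Proof of the first: `Finset.sum_pow_mul_eq_add_pow`, `Finset.powerset_univ`. -/
def BasStmt : Prop := ∀ (α : Type) [Fintype α] (p : ℝ),
  (∀ c : ℝ, ex α p (fun _ => c) = c) ∧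
  (∀ f g : Finset α → ℝ, ex α p (fun E => f E + g E) = ex α p f + ex α p g) ∧
  (∀ (c : ℝ) (f : Finset α → ℝ), ex α p (fun E => c * f E) = c * ex α p f) ∧
  (∀ (ι : Type) (s : Finset ι) (f : ι → Finset α → ℝ), ex α p (fun E => ∑ i ∈ s, f i E) = ∑ i ∈ s, ex α p (f i)) ∧
  (∀ f g : Finset α → ℝ, 0 ≤ p → p ≤ 1 → (∀ E, f E ≤ g E) → ex α p f ≤ ex α p g)

/-- `Prd`: independence of the two parts. Proof: `Finset.sum` over `Finset α` is reindexed by the bijection `(B, C) ↦ join e B C` (`Finset (β ⊕ γ)` is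
`Finset β × Finset γ`, `Finset.toLeft`, `Finset.toRight`, `Finset.toLeft_disjSum`, ...), the cards add up. -/
def PrdStmt : Prop := ∀ (α β γ : Type) [Fintype α] [Fintype β] [Fintype γ] (e : β ⊕ γ ≃ α) (p : ℝ) (F : Finset α → ℝ),
  ex α p F = ex β p fun B => ex γ p fun C => F (join e B C)

/-- `Uni`: existence and uniqueness of the first-fit independent set. Proof: strong recursion on `v` (for instance by induction on `m ≤ n`, sets of the vertices
below `m`; or `WellFounded.fix`); uniqueness by strong induction on `v`. -/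
def UniStmt : Prop := ∀ (n : ℕ) (E : Finset (Pr n)), ∃! I : Finset (Fin n), IsFF E I

/-- `Col`: the first-fit set is independent, it gets one new colour. -/
def ColStmt : Prop := ∀ (n k : ℕ) (E : Finset (Pr n)) (I : Finset (Fin n)), IsFF E I →
  ((gr E).induce {v | v ∉ I}).Colorable k → (gr E).Colorable (k + 1)

/-- `Ind`: the graph on the rest is a fresh random graph. Proof: `β` = the pairs of `Pr n` meeting `I`, `γ = Pr (n - |I|)`, moved into `Pr n` by the order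
embedding of the complement of `I` (`Finset.orderEmbOfFin`); `IsFF (join B C) I` does not depend on `C`; `(gr (join B C)).induce Iᶜ` is isomorphic to `gr C`;
then `Prd`. -/
def IndStmt : Prop := ∀ (k n : ℕ) (p : ℝ) (I : Finset (Fin n)),
  ex (Pr n) p (fun E => ind (IsFF E I) * ind (((gr E).induce {v | v ∉ I}).Colorable k)) =
    ex (Pr n) p (fun E => ind (IsFF E I)) * Ac k (n - I.card) p

/-- expectation of `f` of the size of the first-fit set -/
noncomputable def W (n : ℕ) (p : ℝ) (f : ℕ → ℝ) : ℝ :=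
  ex (Pr n) p fun E => ∑ I : Finset (Fin n), ind (IsFF E I) * f I.card

/-- `Ext`: `Pr (n + 1)` is `Pr n` and the pairs `(u, last)`. -/
def ExtStmt : Prop := ∀ n : ℕ, ∃ e : Pr n ⊕ Fin n ≃ Pr (n + 1),
  (∀ x : Pr n, (e (Sum.inl x)).1 = (x.1.1.castSucc, x.1.2.castSucc)) ∧
  (∀ u : Fin n, (e (Sum.inr u)).1 = (u.castSucc, Fin.last n))

/-- `Rec`: one more vertex. Proof: `Ext`, `Prd`; `IsFF (join e B C) I` iff `IsFF B I'` and (`last ∈ I` iff `C` and `I'` are disjoint), `I'` = the part of `I`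
below `last`; the probability of `Disjoint C I'` is `(1 - p) ^ |I'|`; sum over `I` = sum over `I'` and over `last ∈ I` or not. -/
def RecStmt : Prop := ∀ (n : ℕ) (p : ℝ) (f : ℕ → ℝ),
  W (n + 1) p f = W n p fun s => (1 - p) ^ s * f (s + 1) + (1 - (1 - p) ^ s) * f s

/-- `Mon`: fewer vertices. Proof: `Ext`, `Prd`, `gr B` embeds in `gr (join e B C)`. -/
def MonStmt : Prop := ∀ (k m n : ℕ) (p : ℝ), 0 ≤ p → p ≤ 1 → m ≤ n → Ac k n p ≤ Ac k m p

/-- `Mst`: the main inequality for `G(n,p)`. -/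
def MstStmt : Prop := ∀ (k n s : ℕ) (p δ : ℝ), 0 ≤ p → p < 1 → 0 < δ →
  ((1 - p)⁻¹) ^ s ≤ 1 + n * ((1 - p)⁻¹ - 1) - δ →
  (1 - ((1 - p)⁻¹ - 1) ^ 3 * n ^ 2 / (2 * δ ^ 2)) * Ac k (n - s) p ≤ Ac (k + 1) n p

/-- `Lim`: `h(c) < b`; the same for all `n`. Proof: `p = 2 c₁ / n`, `c₁ > c`, `h(c₁) < b`, `α < log (1 + 2 c₁) / (2 c₁)`, `c₁ (1 - α) < b`, `s = ⌊α n⌋`. -/
def LimStmt : Prop := ∀ (k : ℕ) (b c : ℝ), 0 < b → 0 < c → c - Real.log (1 + 2 * c) / 2 < b →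
  ∃ α : ℝ, 0 < α ∧ α < 1 ∧ ∀ ε : ℝ, 0 < ε → ∃ n₀ : ℕ, ∀ n : ℕ, n₀ ≤ n →
    frac k (n - ⌊α * n⌋₊) ⌊b * ((n - ⌊α * n⌋₊ : ℕ) : ℝ)⌋₊ ≤ frac (k + 1) n ⌊c * n⌋₊ + ε

end Pool.Agent.H74.CT
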