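import Pool.Agent.H74.CT.Fr

set_option autoImplicit false

/-!
# [H74 CT Lim] the limit (helper74)
-/

namespace Pool.Agent.H74.CT

open Filter Topology

namespace Lim

theorem frac_nonneg (k n M : ℕ) : 0 ≤ frac k n M := by
  unfold frac; positivity

theorem frac_le_one (k n M : ℕ) : frac k n M ≤ 1 := by
  unfold frac
  refine div_le_one_of_le₀ ?_ (Nat.cast_nonneg _)
  refine Nat.cast_le.2 ?_
  refine Nat.card_le_card_of_injective
    (fun G : {G : SimpleGraph (Fin n) // G.edgeSet.ncard = M ∧ G.Colorable k} =>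
      (⟨G.1, G.2.1⟩ : {G : SimpleGraph (Fin n) // G.edgeSet.ncard = M})) ?_
  intro G H h
  have := congrArg Subtype.val h
  exact Subtype.ext this

theorem Ac_nonneg (hbas : BasStmt) (k n : ℕ) (p : ℝ) (h0 : 0 ≤ p) (h1 : p ≤ 1) : 0 ≤ Ac k n p := by
  have h := (hbas (Pr n) p).2.2.2.2 (fun _ => (0 : ℝ)) (fun E => ind ((gr E).Colorable k)) h0 h1
    (fun E => by unfold ind; split <;> norm_num)
  rw [(hbas (Pr n) p).1] at h
  exact h

theorem Ac_le_one (hbas : BasStmt) (k n : ℕ) (p : ℝ) (h0 : 0 ≤ p) (h1 : p ≤ 1) : Ac k n p ≤ 1 := by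
  have h := (hbas (Pr n) p).2.2.2.2 (fun E => ind ((gr E).Colorable k)) (fun _ => (1 : ℝ)) h0 h1
    (fun E => by unfold ind; split <;> norm_num)
  rw [(hbas (Pr n) p).1] at h
  exact h

/-- the numbers `c₁` and `α` -/
theorem choice (b c : ℝ) (hc : 0 < c) (h : c - Real.log (1 + 2 * c) / 2 < b) :
    ∃ c₁ α : ℝ, c < c₁ ∧ 0 < α ∧ α < 1 ∧ 2 * c₁ * α < Real.log (1 + 2 * c₁) ∧ c₁ * (1 - α) < b := by
  obtain ⟨c₁, hc₁⟩ : ∃ c₁, c₁ = c + (b - (c - Real.log (1 + 2 * c) / 2)) / 2 := ⟨_, rfl⟩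
  have h1 : c < c₁ := by rw [hc₁]; linarith
  have hlog : Real.log (1 + 2 * c) ≤ Real.log (1 + 2 * c₁) := Real.log_le_log (by linarith) (by linarith)
  have h2 : c₁ - Real.log (1 + 2 * c₁) / 2 < b := by linarith
  have hc1 : 0 < c₁ := hc.trans h1
  obtain ⟨L, hL⟩ : ∃ L, L = Real.log (1 + 2 * c₁) := ⟨_, rfl⟩
  rw [← hL] at h2
  have hLpos : 0 < L := by rw [hL]; exact Real.log_pos (by linarith)
  have hLlt : L < 2 * c₁ := by
    rw [hL]
    have := Real.log_lt_sub_one_of_pos (x := 1 + 2 * c₁) (by linarith) (by linarith)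
    linarith
  obtain ⟨η, hη⟩ : ∃ η, η = min (L / (4 * c₁)) ((b - (c₁ - L / 2)) / (2 * c₁)) := ⟨_, rfl⟩
  have hη0 : 0 < η := by
    rw [hη]
    refine lt_min (by positivity) ?_
    exact div_pos (by linarith) (by linarith)
  have hη1 : η ≤ L / (4 * c₁) := by rw [hη]; exact min_le_left _ _
  have hη2 : η ≤ (b - (c₁ - L / 2)) / (2 * c₁) := by rw [hη]; exact min_le_right _ _
  rw [le_div_iff₀ (by positivity)] at hη1 hη2
  have hq : c₁ * (L / (2 * c₁)) = L / 2 := by field_simp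
  refine ⟨c₁, L / (2 * c₁) - η, h1, ?_, ?_, ?_, ?_⟩
  · rw [sub_pos]
    rw [lt_div_iff₀ (by positivity)]
    nlinarith
  · have : L / (2 * c₁) < 1 := by rw [div_lt_one (by positivity)]; exact hLlt
    linarith
  · rw [← hL]
    have : 2 * c₁ * (L / (2 * c₁) - η) = L - 2 * (c₁ * η) := by
      linear_combination 2 * hq
    rw [this]
    have : 0 < c₁ * η := mul_pos hc1 hη0
    linarith
  · have : c₁ * (1 - (L / (2 * c₁) - η)) = c₁ - L / 2 + c₁ * η := by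
      linear_combination -hq
    rw [this]
    linarith

/-- the power of `1 / (1 - p)` -/
theorem pow_bound (p x : ℝ) (s : ℕ) (h1 : p < 1) (hx : s * p ≤ x) :
    ((1 - p)⁻¹) ^ s ≤ Real.exp (x / (1 - p)) := by
  have hq : 0 < 1 - p := by linarith
  have h : (1 - p)⁻¹ ≤ Real.exp (p / (1 - p)) := by
    have := Real.add_one_le_exp (p / (1 - p))
    have e : p / (1 - p) + 1 = (1 - p)⁻¹ := by field_simp; ring
    rw [e] at this
    exact this
  calc ((1 - p)⁻¹) ^ s ≤ (Real.exp (p / (1 - p))) ^ s := pow_le_pow_left₀ (by positivity) h s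
    _ = Real.exp (s * (p / (1 - p))) := by rw [← Real.exp_nat_mul]
    _ ≤ Real.exp (x / (1 - p)) := by
      refine Real.exp_le_exp.2 ?_
      rw [← mul_div_assoc]
      exact div_le_div_of_nonneg_right hx hq.le

theorem ev_exp (x y c₁ : ℝ) (h : Real.exp x < y) :
    ∀ᶠ n : ℕ in atTop, Real.exp (x / (1 - 2 * c₁ / (n : ℝ))) ≤ y := by
  have t1 : Tendsto (fun n : ℕ => 2 * c₁ / (n : ℝ)) atTop (𝓝 0) := tendsto_const_div_atTop_nhds_zero_nat _
  have t2 : Tendsto (fun n : ℕ => 1 - 2 * c₁ / (n : ℝ)) atTop (𝓝 1) := by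
    have := (tendsto_const_nhds (x := (1 : ℝ)) (f := (atTop : Filter ℕ))).sub t1
    simpa using this
  have t3 : Tendsto (fun n : ℕ => x / (1 - 2 * c₁ / (n : ℝ))) atTop (𝓝 x) := by
    have h := (tendsto_const_nhds (x := x) (f := (atTop : Filter ℕ))).div t2 one_ne_zero
    rw [div_one] at h
    exact h
  have t4 : Tendsto (fun n : ℕ => Real.exp (x / (1 - 2 * c₁ / (n : ℝ)))) atTop (𝓝 (Real.exp x)) :=
    (Real.continuous_exp.tendsto x).comp t3
  exact (t4.eventually (gt_mem_nhds h)).mono fun n hn => le_of_lt hn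

theorem ev_ge (x : ℝ) : ∀ᶠ n : ℕ in atTop, x ≤ (n : ℝ) :=
  tendsto_natCast_atTop_atTop.eventually_ge_atTop x

end Lim

open Lim in
theorem lim (hbas : BasStmt) (htra : TraStmt) (hmst : MstStmt) : LimStmt := by
  intro k b c hb hc hh
  obtain ⟨c₁, α, hcc, hα0, hα1, hαL, hαb⟩ := choice b c hc hh
  have hc1 : 0 < c₁ := hc.trans hcc
  refine ⟨α, hα0, hα1, fun ε hε => ?_⟩
  obtain ⟨δ, hδ⟩ : ∃ δ, δ = (1 + 2 * c₁ - Real.exp (2 * c₁ * α)) / 2 := ⟨_, rfl⟩
  have hexp : Real.exp (2 * c₁ * α) < 1 + 2 * c₁ := by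
    have := Real.exp_lt_exp.2 hαL
    rwa [Real.exp_log (by linarith)] at this
  have hδ0 : 0 < δ := by rw [hδ]; linarith
  obtain ⟨g, hg⟩ : ∃ g, g = b - c₁ * (1 - α) := ⟨_, rfl⟩
  have hg0 : 0 < g := by rw [hg]; linarith
  obtain ⟨e1, he1⟩ : ∃ e1, e1 = 4 * c₁ / (c₁ - c) ^ 2 := ⟨_, rfl⟩
  obtain ⟨e2, he2⟩ : ∃ e2, e2 = 32 * c₁ ^ 3 / δ ^ 2 := ⟨_, rfl⟩
  obtain ⟨e3, he3⟩ : ∃ e3, e3 = 4 * c₁ / g ^ 2 := ⟨_, rfl⟩
  have hcc' : 0 < c₁ - c := by linarith
  have he10 : 0 < e1 := by rw [he1]; positivity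
  have he20 : 0 < e2 := by rw [he2]; positivity
  have he30 : 0 < e3 := by rw [he3]; positivity
  have hall := (ev_exp (2 * c₁ * α) (1 + 2 * c₁ - δ) c₁ (by rw [hδ]; linarith)).and
    ((ev_ge (4 * c₁)).and ((ev_ge (2 * c₁ / (c₁ - c))).and ((ev_ge (2 / (g * (1 - α)))).and
      ((ev_ge ((e1 + e2 + e3) / ε)).and (ev_ge 1)))))
  obtain ⟨n₀, hn₀⟩ := eventually_atTop.1 hall
  refine ⟨n₀, fun n hn => ?_⟩
  obtain ⟨x1, x2, x3, x4, x5, x6⟩ := hn₀ n hn
  have hn0 : (0 : ℝ) < n := by linarith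
  obtain ⟨p, hp⟩ : ∃ p, p = 2 * c₁ / (n : ℝ) := ⟨_, rfl⟩
  have hp0 : 0 < p := by rw [hp]; positivity
  have hp2 : p ≤ 1 / 2 := by
    rw [hp, div_le_iff₀ hn0]; linarith
  have hp1 : p < 1 := by linarith
  have hpn : n * p = 2 * c₁ := by rw [hp]; field_simp
  rw [← hp] at x1
  obtain ⟨s, hs⟩ : ∃ s : ℕ, s = ⌊α * n⌋₊ := ⟨_, rfl⟩
  rw [← hs]
  have hs1 : (s : ℝ) ≤ α * n := by rw [hs]; exact Nat.floor_le (by positivity)
  have hs2 : α * n < s + 1 := by rw [hs]; exact Nat.lt_floor_add_one _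
  have hsn : s ≤ n := by
    have : (s : ℝ) ≤ n := hs1.trans (by nlinarith)
    exact_mod_cast this
  obtain ⟨m, hm⟩ : ∃ m : ℕ, m = n - s := ⟨_, rfl⟩
  rw [← hm]
  have hmr : (m : ℝ) = n - s := by rw [hm]; exact Nat.cast_sub hsn
  have hm1 : (m : ℝ) - 1 ≤ (1 - α) * n := by linarith
  have hm2 : (1 - α) * n ≤ m := by linarith
  have hα' : 0 < 1 - α := by linarith
  have hmpos : (0 : ℝ) < m := lt_of_lt_of_le (by positivity) hm2
  -- (ii)
  have ii : (1 - ((1 - p)⁻¹ - 1) ^ 3 * n ^ 2 / (2 * δ ^ 2)) * Ac k m p ≤ Ac (k + 1) n p := by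
    have := hmst k n s p δ hp0.le hp1 hδ0 ?_
    · rw [hm]; exact this
    · have hb1 := pow_bound p (2 * c₁ * α) s hp1 (by
        have : (s : ℝ) * p ≤ α * n * p := mul_le_mul_of_nonneg_right hs1 hp0.le
        calc (s : ℝ) * p ≤ α * n * p := this
          _ = 2 * c₁ * α := by rw [mul_assoc, hpn]; ring)
      have hb2 : 2 * c₁ ≤ n * ((1 - p)⁻¹ - 1) := by
        have h3 : p ≤ (1 - p)⁻¹ - 1 := by
          have hq : 0 < 1 - p := by linarith
          have : (1 - p)⁻¹ - 1 - p = p ^ 2 * (1 - p)⁻¹ := by field_simp; ring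
          have h4 : 0 ≤ p ^ 2 * (1 - p)⁻¹ := by positivity
          linarith
        calc 2 * c₁ = n * p := hpn.symm
          _ ≤ _ := mul_le_mul_of_nonneg_left h3 hn0.le
      linarith
  have hA0 := Ac_nonneg hbas k m p hp0.le hp1.le
  have hA1 := Ac_le_one hbas k m p hp0.le hp1.le
  have ii' : Ac k m p - e2 / n ≤ Ac (k + 1) n p := by
    have ha : (1 - p)⁻¹ - 1 ≤ 2 * p := by
      have hq : 0 < 1 - p := by linarith
      have : 2 * p - ((1 - p)⁻¹ - 1) = p * (1 - 2 * p) * (1 - p)⁻¹ := by field_simp; ring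
      have h4 : 0 ≤ p * (1 - 2 * p) * (1 - p)⁻¹ := by
        have : 0 ≤ 1 - 2 * p := by linarith
        positivity
      linarith
    have ha0 : 0 ≤ (1 - p)⁻¹ - 1 := by
      have hq : 0 < 1 - p := by linarith
      have := (one_le_inv₀ hq).2 (by linarith)
      linarith
    have h3 : ((1 - p)⁻¹ - 1) ^ 3 * n ^ 2 / (2 * δ ^ 2) ≤ e2 / n := by
      have h4 : ((1 - p)⁻¹ - 1) ^ 3 ≤ (2 * p) ^ 3 := pow_le_pow_left₀ ha0 ha 3
      calc ((1 - p)⁻¹ - 1) ^ 3 * n ^ 2 / (2 * δ ^ 2) ≤ (2 * p) ^ 3 * n ^ 2 / (2 * δ ^ 2) := by gcongr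
        _ = e2 / n := by rw [he2, hp]; field_simp; ring
    have h5 : ((1 - p)⁻¹ - 1) ^ 3 * n ^ 2 / (2 * δ ^ 2) * Ac k m p ≤ e2 / n := by
      have h6 : 0 ≤ ((1 - p)⁻¹ - 1) ^ 3 * n ^ 2 / (2 * δ ^ 2) := by positivity
      calc ((1 - p)⁻¹ - 1) ^ 3 * n ^ 2 / (2 * δ ^ 2) * Ac k m p ≤
          ((1 - p)⁻¹ - 1) ^ 3 * n ^ 2 / (2 * δ ^ 2) * 1 := mul_le_mul_of_nonneg_left hA1 h6
        _ ≤ _ := by rw [mul_one]; exact h3
    linarith
  -- (i)
  have i : Ac (k + 1) n p ≤ frac (k + 1) n ⌊c * n⌋₊ + e1 / n := by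
    have hch : (n.choose 2 : ℝ) * p = c₁ * (n - 1) := by
      rw [Nat.cast_choose_two, hp]; field_simp
    have := (htra (k + 1) n ⌊c * n⌋₊ p ((c₁ - c) * n / 2) hp0.le hp1.le (by positivity)).2 ?_
    · refine this.trans ?_
      have h7 : (n.choose 2 : ℝ) * p / ((c₁ - c) * n / 2) ^ 2 ≤ e1 / n := by
        rw [hch]
        calc c₁ * (n - 1) / ((c₁ - c) * n / 2) ^ 2 ≤ c₁ * n / ((c₁ - c) * n / 2) ^ 2 := by
              gcongr
              linarith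
          _ = e1 / n := by rw [he1]; field_simp; ring
      linarith
    · rw [hch]
      have h8 : (⌊c * n⌋₊ : ℝ) ≤ c * n := Nat.floor_le (by positivity)
      rw [div_le_iff₀ hcc'] at x3
      nlinarith
  -- (iii)
  have iii : frac k m ⌊b * m⌋₊ - e3 / n ≤ Ac k m p := by
    have hch : (m.choose 2 : ℝ) * p ≤ c₁ * (1 - α) * m := by
      rw [Nat.cast_choose_two, hp]
      have h9 : (m : ℝ) * (m - 1) / 2 * (2 * c₁ / n) = c₁ * m * ((m - 1) / n) := by field_simp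
      rw [h9]
      have h10 : ((m : ℝ) - 1) / n ≤ 1 - α := by rw [div_le_iff₀ hn0]; exact hm1
      calc c₁ * m * (((m : ℝ) - 1) / n) ≤ c₁ * m * (1 - α) := mul_le_mul_of_nonneg_left h10 (by positivity)
        _ = _ := by ring
    have hch0 : 0 ≤ (m.choose 2 : ℝ) * p := by positivity
    have := (htra k m ⌊b * m⌋₊ p (g * m / 2) hp0.le hp1.le (by positivity)).1 ?_
    · have h11 : (m.choose 2 : ℝ) * p / (g * m / 2) ^ 2 ≤ e3 / n := by
        calc (m.choose 2 : ℝ) * p / (g * m / 2) ^ 2 ≤ c₁ * (1 - α) * m / (g * m / 2) ^ 2 := by gcongr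
          _ = 4 * c₁ / g ^ 2 * ((1 - α) / m) := by field_simp; ring
          _ ≤ 4 * c₁ / g ^ 2 * (1 / n) := by
            refine mul_le_mul_of_nonneg_left ?_ (by positivity)
            rw [div_le_div_iff₀ hmpos hn0]
            linarith
          _ = e3 / n := by rw [he3]; ring
      have h12 : (m.choose 2 : ℝ) * p / (g * m / 2) ^ 2 * frac k m ⌊b * m⌋₊ ≤ e3 / n := by
        calc (m.choose 2 : ℝ) * p / (g * m / 2) ^ 2 * frac k m ⌊b * m⌋₊ ≤
            (m.choose 2 : ℝ) * p / (g * m / 2) ^ 2 * 1 :=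
              mul_le_mul_of_nonneg_left (frac_le_one _ _ _) (by positivity)
          _ ≤ _ := by rw [mul_one]; exact h11
      linarith
    · have h13 : b * m < ⌊b * m⌋₊ + 1 := Nat.lt_floor_add_one _
      rw [div_le_iff₀ (by positivity)] at x4
      have h14 : 2 ≤ g * m := by
        calc (2 : ℝ) ≤ n * (g * (1 - α)) := x4
          _ = g * ((1 - α) * n) := by ring
          _ ≤ g * m := mul_le_mul_of_nonneg_left hm2 hg0.le
      have h15 : b * m = c₁ * (1 - α) * m + g * m := by rw [hg]; ring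
      linarith
  have x5' : (e1 + e2 + e3) / n ≤ ε := by
    rw [div_le_iff₀ hε] at x5
    rw [div_le_iff₀ hn0]
    linarith
  have h16 : (e1 + e2 + e3) / n = e1 / n + e2 / n + e3 / n := by ring
  linarith

end Pool.Agent.H74.CT
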